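import Pool.Agent.Y137.SF.Defs2

/-!
# Abelian varieties over finite fields with small simple factors
-/

set_option autoImplicit false

namespace Pool.Agent.Y137.HS

open NumberField Pool.Agent.H204R3.CM Pool.Agent.W547.KB Pool.Agent.W495.TA Pool.Agent.W495.TC Module
  Pool.Agent.TH117.BL Pool.Agent.Y137.SF

variable {p : ℕ} [Fact p.Prime] {ν : PadicAlgCl p ≃+* ℂ}

/-- The factors of `Z` have dimension at most three, and any two factors **of dimension three** whose CM
fields have the same Galois closure over `ℚ` (in the field of complex numbers) are isogenous, unless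
these CM fields are Galois over `ℚ` or one of the two factors is supersingular. There is no condition
on the factors that are elliptic curves or abelian surfaces. -/
structure SmallFactors (Z : RedAV p ν) : Prop where
  degree : ∀ i, finrank ℚ (Z.X.factor i).E ≤ 6
  closure : ∀ i k, finrank ℚ (Z.X.factor i).E = 6 → finrank ℚ (Z.X.factor k).E = 6 →
    IntermediateField.normalClosure ℚ (Z.X.factor i).E ℂ =
      IntermediateField.normalClosure ℚ (Z.X.factor k).E ℂ →
    IsGalois ℚ (Z.X.factor i).E ∨ IsSupersingular Z i ∨ IsSupersingular Z k ∨ IsIsogenous Z i k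

theorem SmallFactors.elementary {Z : RedAV p ν} (h : SmallFactors Z) : HasElementaryRelationsS Z :=
  fun e he => AddSubgroup.subset_closure ⟨e, he, Or.inr (Or.inl ⟨Set.univ,
    Or.inl ⟨fun i _ => h.degree i, fun i _ k _ => h.closure i k⟩, fun w _ => trivial⟩), fun _ => rfl⟩

/-- Products of elliptic curves and abelian surfaces. -/
theorem SmallFactors.of_le {Z : RedAV p ν} (h : ∀ i, finrank ℚ (Z.X.factor i).E ≤ 4) :
    SmallFactors Z where
  degree i := (h i).trans (by norm_num)
  closure i k hi _ := by
    have := h i
    omega

end Pool.Agent.Y137.HS
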